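import Pool.Agent.W788.BK.Stm

/-! The Dyson equation up to third order terms. -/

set_option autoImplicit false
set_option linter.unusedSectionVars false

open scoped BigOperators Matrix
open MeasureTheory

namespace Pool.Agent.W261.BK

open Pool.Agent.W788.BK

variable {n m : Type} [Fintype n] [DecidableEq n] [Fintype m] [DecidableEq m]

/-! ### the norm -/

/-- the norm -/
noncomputable def nn (w : n → ℂ) : ℝ := Real.sqrt (nsq w)

theorem nn_nonneg (w : n → ℂ) : 0 ≤ nn w := Real.sqrt_nonneg _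

theorem nn_sq (w : n → ℂ) : nn w ^ 2 = nsq w := Real.sq_sqrt (nsq_nonneg w)

theorem nn_eq (w : n → ℂ) : nn w = ‖(WithLp.toLp 2 w : EuclideanSpace ℂ n)‖ := by
  rw [EuclideanSpace.norm_eq]
  rfl

theorem nn_add (u w : n → ℂ) : nn (u + w) ≤ nn u + nn w := by
  rw [nn_eq, nn_eq, nn_eq]
  exact norm_add_le (WithLp.toLp 2 u : EuclideanSpace ℂ n) (WithLp.toLp 2 w)

theorem nn_smul (c : ℂ) (w : n → ℂ) : nn (c • w) = ‖c‖ * nn w := by
  unfold nn
  rw [nsq_smul, Real.sqrt_mul (by positivity), Real.sqrt_sq (norm_nonneg _)]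

theorem nn_le (B : Matrix n n ℂ) (c : ℝ) (hc : 0 ≤ c) (h : ∀ w, nsq (B *ᵥ w) ≤ c ^ 2 * nsq w)
    (w : n → ℂ) : nn (B *ᵥ w) ≤ c * nn w := by
  unfold nn
  calc Real.sqrt (nsq (B *ᵥ w)) ≤ Real.sqrt (c ^ 2 * nsq w) := Real.sqrt_le_sqrt (h w)
    _ = c * Real.sqrt (nsq w) := by rw [Real.sqrt_mul (by positivity), Real.sqrt_sq hc]

/-- third order terms -/
theorem triple (B B1 B2 : Matrix n n ℂ) (hB : B.IsHermitian) (a c : ℝ) (ha0 : 0 ≤ a)
    (hc0 : 0 ≤ c) (ha : ∀ w, nn (B *ᵥ w) ≤ a * nn w) (h1 : ∀ w, nn (B1 *ᵥ w) ≤ c * nn w)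
    (h2 : ∀ w, nn (B2 *ᵥ w) ≤ c * nn w) (f w : n → ℂ) :
    ‖star f ⬝ᵥ (B *ᵥ (B1 *ᵥ (B *ᵥ (B2 *ᵥ w))))‖ ≤ c ^ 2 * a * (nn (B *ᵥ f) * nn w) := by
  rw [herm hB]
  refine (cs_norm _ _).trans ?_
  change nn (B *ᵥ f) * nn (B1 *ᵥ (B *ᵥ (B2 *ᵥ w))) ≤ _
  have e : nn (B1 *ᵥ (B *ᵥ (B2 *ᵥ w))) ≤ c * (a * (c * nn w)) := by
    refine (h1 _).trans ?_
    refine mul_le_mul_of_nonneg_left ?_ hc0
    refine (ha _).trans ?_
    exact mul_le_mul_of_nonneg_left (h2 _) ha0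
  calc nn (B *ᵥ f) * nn (B1 *ᵥ (B *ᵥ (B2 *ᵥ w))) ≤ nn (B *ᵥ f) * (c * (a * (c * nn w))) :=
        mul_le_mul_of_nonneg_left e (nn_nonneg _)
    _ = _ := by ring

/-! ### bounded continuous functions -/

/-- continuous and almost surely bounded -/
def IB (P : Measure (m → ℝ)) (F : (m → ℝ) → ℂ) : Prop :=
  Continuous F ∧ ∃ C : ℝ, ∀ᵐ V ∂P, ‖F V‖ ≤ C

variable {P : Measure (m → ℝ)}

theorem IB.const (c : ℂ) : IB P (fun _ => c) := ⟨continuous_const, ‖c‖, by simp⟩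

theorem IB.add {F G : (m → ℝ) → ℂ} (hF : IB P F) (hG : IB P G) : IB P (fun V => F V + G V) := by
  obtain ⟨c1, C, hC⟩ := hF
  obtain ⟨c2, D, hD⟩ := hG
  refine ⟨c1.add c2, C + D, ?_⟩
  filter_upwards [hC, hD] with V h1 h2
  exact (norm_add_le _ _).trans (add_le_add h1 h2)

theorem IB.mul {F G : (m → ℝ) → ℂ} (hF : IB P F) (hG : IB P G) : IB P (fun V => F V * G V) := by
  obtain ⟨c1, C, hC⟩ := hF
  obtain ⟨c2, D, hD⟩ := hG
  refine ⟨c1.mul c2, C * D, ?_⟩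
  filter_upwards [hC, hD] with V h1 h2
  rw [norm_mul]
  exact mul_le_mul h1 h2 (norm_nonneg _) ((norm_nonneg _).trans h1)

theorem IB.sum {ι : Type} (s : Finset ι) {F : ι → (m → ℝ) → ℂ} (h : ∀ i, IB P (F i)) :
    IB P (fun V => ∑ i ∈ s, F i V) := by
  classical
  induction s using Finset.induction_on with
  | empty => simpa using IB.const (P := P) 0
  | insert a s ha ih =>
    simp only [Finset.sum_insert ha]
    exact (h a).add ih

theorem IB.int [IsFiniteMeasure P] {F : (m → ℝ) → ℂ} (hF : IB P F) : Integrable F P := by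
  obtain ⟨c1, C, hC⟩ := hF
  exact Integrable.of_bound c1.aestronglyMeasurable C hC

/-- all entries are continuous and bounded -/
def IM (P : Measure (m → ℝ)) (M : (m → ℝ) → Matrix n n ℂ) : Prop :=
  ∀ i j, IB P (fun V => M V i j)

theorem IM.const (B : Matrix n n ℂ) : IM P (fun _ => B) := fun i j => IB.const (B i j)

theorem IM.mul {M N : (m → ℝ) → Matrix n n ℂ} (hM : IM P M) (hN : IM P N) :
    IM P (fun V => M V * N V) := by
  intro i j
  simp only [Matrix.mul_apply]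
  exact IB.sum _ fun k => (hM i k).mul (hN k j)

theorem IM.bl {M : (m → ℝ) → Matrix n n ℂ} (hM : IM P M) (u g : n → ℂ) :
    IB P (fun V => u ⬝ᵥ (M V *ᵥ g)) := by
  unfold dotProduct Matrix.mulVec dotProduct
  exact IB.sum _ fun i => (IB.const (u i)).mul (IB.sum _ fun j => (hM i j).mul (IB.const (g j)))

theorem int_bl [IsFiniteMeasure P] {M : (m → ℝ) → Matrix n n ℂ} (hM : IM P M) (u g : n → ℂ) :
    u ⬝ᵥ ((Matrix.of fun i j => ∫ V, M V i j ∂P) *ᵥ g) = ∫ V, u ⬝ᵥ (M V *ᵥ g) ∂P := by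
  unfold dotProduct Matrix.mulVec dotProduct
  rw [integral_finsetSum]
  · refine Finset.sum_congr rfl fun i _ => ?_
    rw [integral_const_mul, integral_finsetSum]
    · congr 1
      refine Finset.sum_congr rfl fun j _ => ?_
      rw [integral_mul_const]
      rfl
    · intro j _
      exact ((hM i j).mul (IB.const (g j))).int
  · intro i _
    exact ((IB.const (u i)).mul (IB.sum _ fun j => (hM i j).mul (IB.const (g j)))).int

/-! ### the resolvent -/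

section res

variable {X0 : Matrix n n ℂ} {A : m → Matrix n n ℂ} {η : ℝ}

theorem XX_cont : Continuous (fun V : m → ℝ => XX X0 A V) := by
  unfold XX
  refine continuous_const.add (continuous_finsetSum _ fun y _ => ?_)
  exact (Complex.continuous_ofReal.comp (continuous_apply y)).smul continuous_const

theorem RR_cont (h0 : X0.IsHermitian) (hA : ∀ y, (A y).IsHermitian) (hη : 0 < η) :
    Continuous (fun V : m → ℝ => RR X0 A η V) := by
  have h1 : Continuous (fun V : m → ℝ =>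
      XX X0 A V - ((η : ℂ) * Complex.I) • (1 : Matrix n n ℂ)) := XX_cont.sub continuous_const
  have h2 : ∀ V : m → ℝ,
      (XX X0 A V - ((η : ℂ) * Complex.I) • (1 : Matrix n n ℂ)).det ≠ 0 := fun V =>
    ((Matrix.isUnit_iff_isUnit_det _).1 (isUnit_shift (XX_herm h0 hA V) η hη)).ne_zero
  have h3 : (fun V : m → ℝ => RR X0 A η V) = fun V : m → ℝ =>
      ((XX X0 A V - ((η : ℂ) * Complex.I) • (1 : Matrix n n ℂ)).det)⁻¹ •
        (XX X0 A V - ((η : ℂ) * Complex.I) • (1 : Matrix n n ℂ)).adjugate := by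
    funext V
    unfold RR
    rw [Matrix.inv_def, Ring.inverse_eq_inv']
  rw [h3]
  exact (h1.matrix_det.inv₀ h2).smul h1.matrix_adjugate

theorem RR_entry (h0 : X0.IsHermitian) (hA : ∀ y, (A y).IsHermitian) (hη : 0 < η) (V : m → ℝ)
    (i j : n) : ‖RR X0 A η V i j‖ ≤ η⁻¹ := by
  have h1 := RR_bd h0 hA hη V (Pi.single j 1)
  have h2 : nsq (Pi.single j (1 : ℂ) : n → ℂ) = 1 := by
    unfold nsq
    rw [Finset.sum_eq_single j]
    · simp
    · intro b _ hb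
      simp [hb]
    · intro hj
      exact absurd (Finset.mem_univ j) hj
  rw [h2, mul_one] at h1
  have h3 : ‖RR X0 A η V i j‖ ^ 2 ≤ nsq (RR X0 A η V *ᵥ Pi.single j 1) := by
    have := Finset.single_le_sum (f := fun k => ‖(RR X0 A η V *ᵥ Pi.single j 1) k‖ ^ 2)
      (fun _ _ => by positivity) (Finset.mem_univ i)
    simpa [nsq] using this
  have h4 : ‖RR X0 A η V i j‖ ^ 2 ≤ (η⁻¹) ^ 2 := by
    rw [inv_pow]
    exact h3.trans h1
  exact le_of_sq_le_sq h4 (by positivity)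

theorem RR_IM (h0 : X0.IsHermitian) (hA : ∀ y, (A y).IsHermitian) (hη : 0 < η) :
    IM P (fun V : m → ℝ => RR X0 A η V) := fun i j =>
  ⟨(RR_cont h0 hA hη).matrix_elem i j, η⁻¹,
    Filter.Eventually.of_forall fun V => RR_entry h0 hA hη V i j⟩

theorem RRy_IM (h0 : X0.IsHermitian) (hA : ∀ y, (A y).IsHermitian) (hη : 0 < η) (y : m) :
    IM P (fun V : m → ℝ => RR X0 A η (Function.update V y 0)) := fun i j =>
  ⟨((RR_cont h0 hA hη).comp (continuous_id.update y continuous_const)).matrix_elem i j, η⁻¹,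
    Filter.Eventually.of_forall fun _ => RR_entry h0 hA hη _ i j⟩

theorem RR_nn (h0 : X0.IsHermitian) (hA : ∀ y, (A y).IsHermitian) (hη : 0 < η) (V : m → ℝ)
    (w : n → ℂ) : nn (RR X0 A η V *ᵥ w) ≤ η⁻¹ * nn w := by
  refine nn_le _ _ (by positivity) (fun w => ?_) w
  rw [inv_pow]
  exact RR_bd h0 hA hη V w

/-- the expansion -/
theorem expand (h0 : X0.IsHermitian) (hA : ∀ y, (A y).IsHermitian) (hη : 0 < η) (V : m → ℝ)
    (y : m) (s2 : ℝ) :
    (V y : ℂ) • (A y * RR X0 A η V) + (s2 : ℂ) • (A y * RR X0 A η V * A y * RR X0 A η V) =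
      (V y : ℂ) • (A y * RR X0 A η (Function.update V y 0)) -
      (((V y) ^ 2 : ℝ) : ℂ) • (A y * RR X0 A η (Function.update V y 0) * A y *
        RR X0 A η (Function.update V y 0)) +
      (s2 : ℂ) • (A y * RR X0 A η (Function.update V y 0) * A y *
        RR X0 A η (Function.update V y 0)) +
      ((((V y) ^ 3 : ℝ) : ℂ) • (A y * (RR X0 A η (Function.update V y 0) * (A y *
        (RR X0 A η (Function.update V y 0) * (A y * RR X0 A η V))))) -
      (s2 * V y : ℂ) • (A y * (RR X0 A η V * (A y *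
        (RR X0 A η (Function.update V y 0) * (A y * RR X0 A η (Function.update V y 0))))) +
        A y * (RR X0 A η V * (A y *
        (RR X0 A η (Function.update V y 0) * (A y * RR X0 A η V)))))) := by
  obtain ⟨r1, r2⟩ := RR_update h0 hA hη V y
  generalize RR X0 A η (Function.update V y 0) = S at r1 r2 ⊢
  generalize RR X0 A η V = R at r1 r2 ⊢
  generalize A y = B at r1 r2 ⊢
  obtain ⟨t, ht⟩ : ∃ t : ℂ, t = (V y : ℂ) := ⟨_, rfl⟩
  push_cast
  rw [← ht] at r1 r2 ⊢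
  generalize (s2 : ℂ) = c
  -- `B R = B S - t B S B R` and `B S B R = B S B S - t B S B S B R`
  have k1 : B * R = B * S - t • (B * (S * (B * R))) := by
    calc B * R = B * (S - t • (S * B * R)) := by rw [← r2]
      _ = _ := by rw [mul_sub, mul_smul_comm]; simp only [mul_assoc]
  have k2 : B * (S * (B * R)) = B * (S * (B * S)) - t • (B * (S * (B * (S * (B * R))))) := by
    calc B * (S * (B * R)) = B * (S * (B * S - t • (B * (S * (B * R))))) := by rw [← k1]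
      _ = _ := by rw [mul_sub, mul_sub, mul_smul_comm, mul_smul_comm]
  have k3 : t • (B * R) = t • (B * S) - (t ^ 2) • (B * (S * (B * S))) +
      (t ^ 3) • (B * (S * (B * (S * (B * R))))) := by
    calc t • (B * R) = t • (B * S - t • (B * (S * (B * S)) -
          t • (B * (S * (B * (S * (B * R))))))) := by rw [← k2, ← k1]
      _ = _ := by
          simp only [smul_sub, smul_smul]
          rw [pow_two, pow_succ, pow_two]
          simp only [mul_assoc]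
          abel
  -- `B S = B R + t B R B S`
  have k4 : B * (R * (B * S)) = B * (R * (B * R)) + t • (B * (R * (B * (S * (B * R))))) := by
    have : B * S = B * R + t • (B * (S * (B * R))) := by
      rw [eq_sub_iff_add_eq.1 k1]
    rw [this, mul_add, mul_add, mul_smul_comm, mul_smul_comm]
  have k5 : B * (S * (B * S)) = B * (R * (B * S)) + t • (B * (R * (B * (S * (B * S))))) := by
    have e : S = R + t • (R * B * S) := (eq_sub_iff_add_eq.1 r1).symm
    calc B * (S * (B * S)) = B * ((R + t • (R * B * S)) * (B * S)) := by rw [← e]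
      _ = _ := by rw [add_mul, mul_add, smul_mul_assoc, mul_smul_comm]; simp only [mul_assoc]
  rw [k3]
  simp only [mul_assoc]
  clear k1 k2 k3
  generalize B * (R * (B * (S * (B * S)))) = x3 at k5 ⊢
  generalize B * (R * (B * (S * (B * R)))) = x4 at k4 ⊢
  generalize B * (S * (B * (S * (B * R)))) = x5
  generalize B * (S * (B * S)) = x1 at k5 ⊢
  generalize B * (R * (B * R)) = x2 at k4 ⊢
  generalize B * (R * (B * S)) = x6 at k4 k5
  rw [k5, k4]
  module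

/-- third order terms -/
noncomputable def T1 (X0 : Matrix n n ℂ) (A : m → Matrix n n ℂ) (η : ℝ) (y : m) (V : m → ℝ) :
    Matrix n n ℂ :=
  A y * (RR X0 A η (Function.update V y 0) * (A y *
        (RR X0 A η (Function.update V y 0) * (A y * RR X0 A η V))))

/-- third order terms -/
noncomputable def T2 (X0 : Matrix n n ℂ) (A : m → Matrix n n ℂ) (η : ℝ) (y : m) (V : m → ℝ) :
    Matrix n n ℂ :=
  A y * (RR X0 A η V * (A y *
        (RR X0 A η (Function.update V y 0) * (A y * RR X0 A η (Function.update V y 0)))))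

/-- third order terms -/
noncomputable def T3 (X0 : Matrix n n ℂ) (A : m → Matrix n n ℂ) (η : ℝ) (y : m) (V : m → ℝ) :
    Matrix n n ℂ :=
  A y * (RR X0 A η V * (A y *
        (RR X0 A η (Function.update V y 0) * (A y * RR X0 A η V))))

/-- the sum of the third order terms -/
noncomputable def G3 (X0 : Matrix n n ℂ) (A : m → Matrix n n ℂ) (η s2 : ℝ) (f g : n → ℂ)
    (V : m → ℝ) : ℂ :=
  ∑ y, ((((V y) ^ 3 : ℝ) : ℂ) * (star f ⬝ᵥ (T1 X0 A η y V *ᵥ g)) -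
    (s2 * V y : ℂ) * (star f ⬝ᵥ (T2 X0 A η y V *ᵥ g) + star f ⬝ᵥ (T3 X0 A η y V *ᵥ g)))

theorem bound {a v2 Q : ℝ} (H : Adm X0 A a v2 Q) (β s2 : ℝ) (hβ : 0 < β) (hs0 : 0 ≤ s2)
    (hs : s2 ≤ β ^ 2) (hη : 0 < η) (hβa : β * a ≤ η) (f g : n → ℂ) (hf : nsq f = 1)
    (hg : nsq g = 1) (V : m → ℝ) (hV : ∀ y, |V y| ≤ β) :
    ‖G3 X0 A η s2 f g V‖ ≤ 4 * β ^ 3 * a * v2 / η ^ 3 := by
  have hAn : ∀ y w, nn (A y *ᵥ w) ≤ a * nn w := fun y w => nn_le _ _ H.ha0 (H.ha y) w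
  have hR : ∀ (U : m → ℝ) w, nn (RR X0 A η U *ᵥ w) ≤ η⁻¹ * nn w := fun U w =>
    RR_nn H.hX0 H.hA hη U w
  have hη' : 0 ≤ η⁻¹ := by positivity
  have ha0 := H.ha0
  -- terms
  have t1 : ∀ y, ‖star f ⬝ᵥ (T1 X0 A η y V *ᵥ g)‖ ≤
      (η⁻¹) ^ 2 * a * (nn (A y *ᵥ f) * nn (A y *ᵥ (RR X0 A η V *ᵥ g))) := by
    intro y
    have := triple (A y) (RR X0 A η (Function.update V y 0)) (RR X0 A η (Function.update V y 0))
      (H.hA y) a η⁻¹ H.ha0 hη' (hAn y) (hR _) (hR _) f (A y *ᵥ (RR X0 A η V *ᵥ g))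
    simpa only [T1, ← Matrix.mulVec_mulVec] using this
  have t3 : ∀ y, ‖star f ⬝ᵥ (T3 X0 A η y V *ᵥ g)‖ ≤
      (η⁻¹) ^ 2 * a * (nn (A y *ᵥ f) * nn (A y *ᵥ (RR X0 A η V *ᵥ g))) := by
    intro y
    have := triple (A y) (RR X0 A η V) (RR X0 A η (Function.update V y 0))
      (H.hA y) a η⁻¹ H.ha0 hη' (hAn y) (hR _) (hR _) f (A y *ᵥ (RR X0 A η V *ᵥ g))
    simpa only [T3, ← Matrix.mulVec_mulVec] using this
  have two : ∀ y, nn (A y *ᵥ (RR X0 A η (Function.update V y 0) *ᵥ g)) ≤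
      2 * nn (A y *ᵥ (RR X0 A η V *ᵥ g)) := by
    intro y
    have r2 := (RR_update H.hX0 H.hA hη V y).2
    have e1 : A y *ᵥ (RR X0 A η (Function.update V y 0) *ᵥ g) = A y *ᵥ (RR X0 A η V *ᵥ g) +
        (V y : ℂ) • (A y *ᵥ (RR X0 A η (Function.update V y 0) *ᵥ
          (A y *ᵥ (RR X0 A η V *ᵥ g)))) := by
      have e2 : RR X0 A η (Function.update V y 0) = RR X0 A η V +
          (V y : ℂ) • (RR X0 A η (Function.update V y 0) * A y * RR X0 A η V) :=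
        (eq_sub_iff_add_eq.1 r2).symm
      have e3 := congrArg (fun M => A y *ᵥ (M *ᵥ g)) e2
      simp only [Matrix.add_mulVec, Matrix.mulVec_add, Matrix.smul_mulVec, Matrix.mulVec_smul,
        ← Matrix.mulVec_mulVec] at e3
      exact e3
    rw [e1]
    refine (nn_add _ _).trans ?_
    rw [nn_smul, Complex.norm_real, Real.norm_eq_abs]
    have e4 : nn (A y *ᵥ (RR X0 A η (Function.update V y 0) *ᵥ (A y *ᵥ (RR X0 A η V *ᵥ g)))) ≤
        a * (η⁻¹ * nn (A y *ᵥ (RR X0 A η V *ᵥ g))) :=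
      (hAn y _).trans (mul_le_mul_of_nonneg_left (hR _ _) ha0)
    have e5 : |V y| * nn (A y *ᵥ (RR X0 A η (Function.update V y 0) *ᵥ
        (A y *ᵥ (RR X0 A η V *ᵥ g)))) ≤ 1 * nn (A y *ᵥ (RR X0 A η V *ᵥ g)) := by
      calc |V y| * nn (A y *ᵥ (RR X0 A η (Function.update V y 0) *ᵥ
            (A y *ᵥ (RR X0 A η V *ᵥ g)))) ≤ β * (a * (η⁻¹ * nn (A y *ᵥ (RR X0 A η V *ᵥ g)))) :=
            mul_le_mul (hV y) e4 (nn_nonneg _) hβ.le
        _ = (β * a) * η⁻¹ * nn (A y *ᵥ (RR X0 A η V *ᵥ g)) := by ring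
        _ ≤ η * η⁻¹ * nn (A y *ᵥ (RR X0 A η V *ᵥ g)) := by
            have := nn_nonneg (A y *ᵥ (RR X0 A η V *ᵥ g))
            gcongr
        _ = _ := by rw [mul_inv_cancel₀ hη.ne']
    linarith
  have t2 : ∀ y, ‖star f ⬝ᵥ (T2 X0 A η y V *ᵥ g)‖ ≤
      2 * ((η⁻¹) ^ 2 * a * (nn (A y *ᵥ f) * nn (A y *ᵥ (RR X0 A η V *ᵥ g)))) := by
    intro y
    have := triple (A y) (RR X0 A η V) (RR X0 A η (Function.update V y 0))
      (H.hA y) a η⁻¹ H.ha0 hη' (hAn y) (hR _) (hR _) f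
      (A y *ᵥ (RR X0 A η (Function.update V y 0) *ᵥ g))
    have e : ‖star f ⬝ᵥ (T2 X0 A η y V *ᵥ g)‖ ≤ (η⁻¹) ^ 2 * a * (nn (A y *ᵥ f) *
        nn (A y *ᵥ (RR X0 A η (Function.update V y 0) *ᵥ g))) := by
      simpa only [T2, ← Matrix.mulVec_mulVec] using this
    refine e.trans ?_
    calc (η⁻¹) ^ 2 * a * (nn (A y *ᵥ f) * nn (A y *ᵥ (RR X0 A η (Function.update V y 0) *ᵥ g)))
        ≤ (η⁻¹) ^ 2 * a * (nn (A y *ᵥ f) * (2 * nn (A y *ᵥ (RR X0 A η V *ᵥ g)))) := by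
          have := nn_nonneg (A y *ᵥ f)
          have := two y
          gcongr
      _ = _ := by ring
  -- the sum
  have hsum : ∑ y, nn (A y *ᵥ f) * nn (A y *ᵥ (RR X0 A η V *ᵥ g)) ≤ v2 * η⁻¹ := by
    refine le_of_sq_le_sq ?_ (mul_nonneg H.hv0 hη')
    calc (∑ y, nn (A y *ᵥ f) * nn (A y *ᵥ (RR X0 A η V *ᵥ g))) ^ 2
        ≤ (∑ y, nn (A y *ᵥ f) ^ 2) * ∑ y, nn (A y *ᵥ (RR X0 A η V *ᵥ g)) ^ 2 :=
          Finset.sum_mul_sq_le_sq_mul_sq _ _ _
      _ = (∑ y, nsq (A y *ᵥ f)) * ∑ y, nsq (A y *ᵥ (RR X0 A η V *ᵥ g)) := by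
          simp only [nn_sq]
      _ ≤ (v2 * nsq f) * (v2 * nsq (RR X0 A η V *ᵥ g)) := by
          refine mul_le_mul (H.hv f) (H.hv _) ?_ (mul_nonneg H.hv0 (nsq_nonneg f))
          exact Finset.sum_nonneg fun _ _ => nsq_nonneg _
      _ ≤ (v2 * 1) * (v2 * ((η ^ 2)⁻¹ * nsq g)) := by
          rw [hf]
          have := RR_bd H.hX0 H.hA hη V g
          have h0 := H.hv0
          gcongr
      _ = (v2 * η⁻¹) ^ 2 := by
          rw [hg]
          ring
  unfold G3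
  calc ‖∑ y, ((((V y) ^ 3 : ℝ) : ℂ) * (star f ⬝ᵥ (T1 X0 A η y V *ᵥ g)) -
      (s2 * V y : ℂ) * (star f ⬝ᵥ (T2 X0 A η y V *ᵥ g) + star f ⬝ᵥ (T3 X0 A η y V *ᵥ g)))‖
      ≤ ∑ y, 4 * β ^ 3 * ((η⁻¹) ^ 2 * a *
        (nn (A y *ᵥ f) * nn (A y *ᵥ (RR X0 A η V *ᵥ g)))) := by
        refine (norm_sum_le _ _).trans (Finset.sum_le_sum fun y _ => ?_)
        have h1 := t1 y
        have h2 := t2 y
        have h3 := t3 y
        set q : ℝ := (η⁻¹) ^ 2 * a * (nn (A y *ᵥ f) * nn (A y *ᵥ (RR X0 A η V *ᵥ g))) with hq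
        have hq0 : 0 ≤ q := (norm_nonneg _).trans h1
        refine (norm_sub_le _ _).trans ?_
        rw [norm_mul, norm_mul, norm_mul, Complex.norm_real, Complex.norm_real, Complex.norm_real,
          Real.norm_eq_abs, Real.norm_eq_abs, Real.norm_eq_abs, abs_pow, abs_of_nonneg hs0]
        have h4 : |V y| ^ 3 * ‖star f ⬝ᵥ (T1 X0 A η y V *ᵥ g)‖ ≤ β ^ 3 * q :=
          mul_le_mul (pow_le_pow_left₀ (abs_nonneg _) (hV y) 3) h1 (norm_nonneg _) (by positivity)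
        have h5 : ‖star f ⬝ᵥ (T2 X0 A η y V *ᵥ g) + star f ⬝ᵥ (T3 X0 A η y V *ᵥ g)‖ ≤ 3 * q :=
          (norm_add_le _ _).trans (by linarith)
        have h6 : s2 * |V y| * ‖star f ⬝ᵥ (T2 X0 A η y V *ᵥ g) +
            star f ⬝ᵥ (T3 X0 A η y V *ᵥ g)‖ ≤ β ^ 2 * β * (3 * q) :=
          mul_le_mul (mul_le_mul hs (hV y) (abs_nonneg _) (by positivity)) h5 (norm_nonneg _)
            (by positivity)
        calc _ ≤ β ^ 3 * q + β ^ 2 * β * (3 * q) := add_le_add h4 h6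
          _ = _ := by ring
    _ = 4 * β ^ 3 * ((η⁻¹) ^ 2 * a) *
        ∑ y, nn (A y *ᵥ f) * nn (A y *ᵥ (RR X0 A η V *ᵥ g)) := by
        rw [Finset.mul_sum]
        exact Finset.sum_congr rfl fun y _ => by ring
    _ ≤ 4 * β ^ 3 * ((η⁻¹) ^ 2 * a) * (v2 * η⁻¹) := by
        gcongr
    _ = 4 * β ^ 3 * a * v2 / η ^ 3 := by
        field_simp

/-- the pointwise identity -/
theorem pointwise (h0 : X0.IsHermitian) (hA : ∀ y, (A y).IsHermitian) (hη : 0 < η) (V : m → ℝ)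
    (s2 : ℝ) (f g : n → ℂ) :
    (star f ᵥ* (X0 - ((η : ℂ) * Complex.I) • (1 : Matrix n n ℂ))) ⬝ᵥ (RR X0 A η V *ᵥ g) -
      (s2 : ℂ) * (star f ⬝ᵥ ((Psi A (RR X0 A η V) * RR X0 A η V) *ᵥ g)) - star f ⬝ᵥ g =
    -(∑ y, ((V y : ℂ) * (star f ⬝ᵥ ((A y * RR X0 A η (Function.update V y 0)) *ᵥ g)) -
      (((V y) ^ 2 : ℝ) : ℂ) * (star f ⬝ᵥ ((A y * RR X0 A η (Function.update V y 0) * A y *
        RR X0 A η (Function.update V y 0)) *ᵥ g)) +
      (s2 : ℂ) * (star f ⬝ᵥ ((A y * RR X0 A η (Function.update V y 0) * A y *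
        RR X0 A η (Function.update V y 0)) *ᵥ g)))) - G3 X0 A η s2 f g V := by
  have h1 := mul_RR h0 hA hη V
  -- the functional
  have hl : ∀ y, (V y : ℂ) * (star f ⬝ᵥ ((A y * RR X0 A η V) *ᵥ g)) +
      (s2 : ℂ) * (star f ⬝ᵥ ((A y * RR X0 A η V * A y * RR X0 A η V) *ᵥ g)) =
      ((V y : ℂ) * (star f ⬝ᵥ ((A y * RR X0 A η (Function.update V y 0)) *ᵥ g)) -
      (((V y) ^ 2 : ℝ) : ℂ) * (star f ⬝ᵥ ((A y * RR X0 A η (Function.update V y 0) * A y *
        RR X0 A η (Function.update V y 0)) *ᵥ g)) +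
      (s2 : ℂ) * (star f ⬝ᵥ ((A y * RR X0 A η (Function.update V y 0) * A y *
        RR X0 A η (Function.update V y 0)) *ᵥ g))) +
      ((((V y) ^ 3 : ℝ) : ℂ) * (star f ⬝ᵥ (T1 X0 A η y V *ᵥ g)) -
    (s2 * V y : ℂ) * (star f ⬝ᵥ (T2 X0 A η y V *ᵥ g) + star f ⬝ᵥ (T3 X0 A η y V *ᵥ g))) := by
    intro y
    have h := congrArg (fun M : Matrix n n ℂ => star f ⬝ᵥ (M *ᵥ g)) (expand h0 hA hη V y s2)
    simp only [Matrix.add_mulVec, Matrix.sub_mulVec, Matrix.smul_mulVec, dotProduct_add,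
      dotProduct_sub, dotProduct_smul, smul_eq_mul] at h
    exact h
  have h2 : (X0 - ((η : ℂ) * Complex.I) • (1 : Matrix n n ℂ)) * RR X0 A η V =
      1 - ∑ y, (V y : ℂ) • (A y * RR X0 A η V) := by
    refine eq_sub_of_add_eq (Eq.trans ?_ h1)
    unfold XX
    rw [add_sub_right_comm, add_mul, Finset.sum_mul]
    simp only [smul_mul_assoc]
  have h3 : (star f ᵥ* (X0 - ((η : ℂ) * Complex.I) • (1 : Matrix n n ℂ))) ⬝ᵥ
      (RR X0 A η V *ᵥ g) = star f ⬝ᵥ g -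
        ∑ y, (V y : ℂ) * (star f ⬝ᵥ ((A y * RR X0 A η V) *ᵥ g)) := by
    rw [← Matrix.dotProduct_mulVec, Matrix.mulVec_mulVec, h2, Matrix.sub_mulVec,
      Matrix.one_mulVec, dotProduct_sub, Matrix.sum_mulVec, dotProduct_sum]
    simp only [Matrix.smul_mulVec, dotProduct_smul, smul_eq_mul]
  have h4 : (s2 : ℂ) * (star f ⬝ᵥ ((Psi A (RR X0 A η V) * RR X0 A η V) *ᵥ g)) =
      ∑ y, (s2 : ℂ) * (star f ⬝ᵥ ((A y * RR X0 A η V * A y * RR X0 A η V) *ᵥ g)) := by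
    unfold Psi
    rw [Finset.sum_mul, Matrix.sum_mulVec, dotProduct_sum, Finset.mul_sum]
  rw [h3, h4]
  unfold G3
  have h5 : ∀ a b c : ℂ, a - b - c - a = -(b + c) := fun a b c => by ring
  rw [h5, ← neg_add', ← Finset.sum_add_distrib, ← Finset.sum_add_distrib]
  congr 1
  exact Finset.sum_congr rfl fun y _ => hl y

end res

theorem third (h : S_FAC) : S_THIRD := by
  intro n m _ _ _ _ X0 A a v2 Q H μ _ β s2 η hβ hsup hmean hvar hη hη1 hβa f g hf hg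
  have hP : IsProbabilityMeasure (PP m μ) := by
    unfold PP
    infer_instance
  -- the potential is bounded
  have hV : ∀ᵐ V ∂(PP m μ), ∀ y, |V y| ≤ β := by
    rw [ae_all_iff]
    intro y
    have h1 := (MeasureTheory.measurePreserving_eval (fun _ : m => μ) y).quasiMeasurePreserving
    exact h1.ae hsup
  have hs0 : 0 ≤ s2 := by
    rw [← hvar]
    exact integral_nonneg fun s => sq_nonneg s
  have hs : s2 ≤ β ^ 2 := by
    rw [← hvar]
    have hb : ∀ᵐ s ∂μ, s ^ 2 ≤ β ^ 2 := by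
      filter_upwards [hsup] with s h1
      exact sq_le_sq' (abs_le.1 h1).1 (abs_le.1 h1).2
    have hi : Integrable (fun s : ℝ => s ^ 2) μ := by
      refine Integrable.of_bound (by fun_prop) (β ^ 2) ?_
      filter_upwards [hb] with s h1
      rwa [Real.norm_of_nonneg (sq_nonneg s)]
    calc ∫ s, s ^ 2 ∂μ ≤ ∫ _, β ^ 2 ∂μ := integral_mono_ae hi (integrable_const _) hb
      _ = β ^ 2 := by simp
  have hVI : ∀ y, IB (PP m μ) (fun V => (V y : ℂ)) := fun y =>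
    ⟨Complex.continuous_ofReal.comp (continuous_apply y), β, by
      filter_upwards [hV] with V h1
      rw [Complex.norm_real]
      exact h1 y⟩
  have hR : IM (PP m μ) (fun V => RR X0 A η V) := RR_IM H.hX0 H.hA hη
  have hRy : ∀ y, IM (PP m μ) (fun V => RR X0 A η (Function.update V y 0)) := fun y =>
    RRy_IM H.hX0 H.hA hη y
  have hPsi : IM (PP m μ) (fun V => Psi A (RR X0 A η V)) := by
    intro i j
    unfold Psi
    simp only [Matrix.sum_apply]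
    exact IB.sum _ fun y => (((IM.const (A y)).mul hR).mul (IM.const (A y))) i j
  set G1 : m → (m → ℝ) → ℂ := fun y V =>
    star f ⬝ᵥ ((A y * RR X0 A η (Function.update V y 0)) *ᵥ g) with hG1
  set G2 : m → (m → ℝ) → ℂ := fun y V =>
    star f ⬝ᵥ ((A y * RR X0 A η (Function.update V y 0) * A y *
        RR X0 A η (Function.update V y 0)) *ᵥ g) with hG2
  have iG1 : ∀ y, IB (PP m μ) (G1 y) := fun y => ((IM.const (A y)).mul (hRy y)).bl _ _
  have iG2 : ∀ y, IB (PP m μ) (G2 y) := fun y =>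
    ((((IM.const (A y)).mul (hRy y)).mul (IM.const (A y))).mul (hRy y)).bl _ _
  have iT1 : ∀ y, IB (PP m μ) (fun V => star f ⬝ᵥ (T1 X0 A η y V *ᵥ g)) := fun y =>
    (((IM.const (A y)).mul ((hRy y).mul ((IM.const (A y)).mul ((hRy y).mul
      ((IM.const (A y)).mul hR)))))).bl _ _
  have iT2 : ∀ y, IB (PP m μ) (fun V => star f ⬝ᵥ (T2 X0 A η y V *ᵥ g)) := fun y =>
    (((IM.const (A y)).mul (hR.mul ((IM.const (A y)).mul ((hRy y).mul
      ((IM.const (A y)).mul (hRy y))))))).bl _ _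
  have iT3 : ∀ y, IB (PP m μ) (fun V => star f ⬝ᵥ (T3 X0 A η y V *ᵥ g)) := fun y =>
    (((IM.const (A y)).mul (hR.mul ((IM.const (A y)).mul ((hRy y).mul
      ((IM.const (A y)).mul hR)))))).bl _ _
  have iG3 : IB (PP m μ) (G3 X0 A η s2 f g) := by
    have e : G3 X0 A η s2 f g = fun V => ∑ y, (((V y : ℂ) * ((V y : ℂ) * (V y : ℂ))) *
        (star f ⬝ᵥ (T1 X0 A η y V *ᵥ g)) + (-(s2 : ℂ) * (V y : ℂ)) *
        (star f ⬝ᵥ (T2 X0 A η y V *ᵥ g) + star f ⬝ᵥ (T3 X0 A η y V *ᵥ g))) := by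
      funext V
      unfold G3
      refine Finset.sum_congr rfl fun y _ => ?_
      push_cast
      ring
    rw [e]
    exact IB.sum _ fun y => (((hVI y).mul ((hVI y).mul (hVI y))).mul (iT1 y)).add
      (((IB.const (-(s2 : ℂ))).mul (hVI y)).mul ((iT2 y).add (iT3 y)))
  -- the first and second order terms
  have z1 : ∀ y, ∫ V, (V y : ℂ) * G1 y V ∂(PP m μ) = 0 := by
    intro y
    have := h m μ y (fun s => s) (G1 y) continuous_id (iG1 y).1 (by
      intro V t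
      simp only [hG1, Function.update_idem])
    rw [this, hmean]
    simp
  have z2 : ∀ y, ∫ V, (((V y) ^ 2 : ℝ) : ℂ) * G2 y V ∂(PP m μ) =
      (s2 : ℂ) * ∫ V, G2 y V ∂(PP m μ) := by
    intro y
    have := h m μ y (fun s => s ^ 2) (G2 y) (by fun_prop) (iG2 y).1 (by
      intro V t
      simp only [hG2, Function.update_idem])
    rw [this, hvar]
  -- the left side as an integral
  have hleft : star f ⬝ᵥ (((X0 - ((η : ℂ) * Complex.I) • (1 : Matrix n n ℂ)) * MM X0 A η μ -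
      (s2 : ℂ) • SE X0 A η μ - 1) *ᵥ g) = - ∫ V, G3 X0 A η s2 f g V ∂(PP m μ) := by
    have e1 : star f ⬝ᵥ (((X0 - ((η : ℂ) * Complex.I) • (1 : Matrix n n ℂ)) * MM X0 A η μ -
        (s2 : ℂ) • SE X0 A η μ - 1) *ᵥ g) =
        (star f ᵥ* (X0 - ((η : ℂ) * Complex.I) • (1 : Matrix n n ℂ))) ⬝ᵥ (MM X0 A η μ *ᵥ g) -
        (s2 : ℂ) * (star f ⬝ᵥ (SE X0 A η μ *ᵥ g)) - star f ⬝ᵥ g := by
      rw [Matrix.sub_mulVec, Matrix.sub_mulVec, Matrix.one_mulVec, dotProduct_sub,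
        dotProduct_sub, Matrix.smul_mulVec, dotProduct_smul, smul_eq_mul,
        ← Matrix.mulVec_mulVec, Matrix.dotProduct_mulVec (star f)]
    rw [e1]
    unfold MM SE
    rw [int_bl hR, int_bl (hPsi.mul hR), ← integral_const_mul]
    have i1 : Integrable (fun V => (star f ᵥ* (X0 - ((η : ℂ) * Complex.I) •
        (1 : Matrix n n ℂ))) ⬝ᵥ (RR X0 A η V *ᵥ g)) (PP m μ) := (hR.bl _ _).int
    have i2 : Integrable (fun V => (s2 : ℂ) * (star f ⬝ᵥ ((Psi A (RR X0 A η V) * RR X0 A η V) *ᵥ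
        g))) (PP m μ) := ((IB.const (s2 : ℂ)).mul ((hPsi.mul hR).bl _ _)).int
    rw [← integral_sub i1 i2]
    have e2 : star f ⬝ᵥ g = ∫ _V : m → ℝ, star f ⬝ᵥ g ∂(PP m μ) := by simp
    have i12 : Integrable (fun V => (star f ᵥ* (X0 - ((η : ℂ) * Complex.I) •
        (1 : Matrix n n ℂ))) ⬝ᵥ (RR X0 A η V *ᵥ g) - (s2 : ℂ) * (star f ⬝ᵥ
        ((Psi A (RR X0 A η V) * RR X0 A η V) *ᵥ g))) (PP m μ) := i1.sub i2
    rw [e2, ← integral_sub i12 (integrable_const _)]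
    have i3 : ∀ y, IB (PP m μ) (fun V => (V y : ℂ) * G1 y V) := fun y => (hVI y).mul (iG1 y)
    have i4 : ∀ y, IB (PP m μ) (fun V => (((V y) ^ 2 : ℝ) : ℂ) * G2 y V) := by
      intro y
      have : (fun V : m → ℝ => (((V y) ^ 2 : ℝ) : ℂ) * G2 y V) = fun V : m → ℝ =>
          ((V y : ℂ) * (V y : ℂ)) * G2 y V := by
        funext V
        push_cast
        ring
      rw [this]
      exact ((hVI y).mul (hVI y)).mul (iG2 y)
    have i5 : ∀ y, IB (PP m μ) (fun V => (s2 : ℂ) * G2 y V) := fun y =>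
      (IB.const (s2 : ℂ)).mul (iG2 y)
    have e3 : ∀ V : m → ℝ, (star f ᵥ* (X0 - ((η : ℂ) * Complex.I) •
        (1 : Matrix n n ℂ))) ⬝ᵥ (RR X0 A η V *ᵥ g) -
        (s2 : ℂ) * (star f ⬝ᵥ ((Psi A (RR X0 A η V) * RR X0 A η V) *ᵥ g)) - star f ⬝ᵥ g =
        -(∑ y, ((V y : ℂ) * G1 y V - (((V y) ^ 2 : ℝ) : ℂ) * G2 y V + (s2 : ℂ) * G2 y V)) -
          G3 X0 A η s2 f g V := fun V => pointwise H.hX0 H.hA hη V s2 f g
    simp only [e3]
    have i6 : ∀ y, Integrable (fun V => (V y : ℂ) * G1 y V -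
        (((V y) ^ 2 : ℝ) : ℂ) * G2 y V + (s2 : ℂ) * G2 y V) (PP m μ) := fun y =>
      ((i3 y).int.sub (i4 y).int).add (i5 y).int
    have i7 : Integrable (fun V : m → ℝ => -(∑ y, ((V y : ℂ) * G1 y V -
        (((V y) ^ 2 : ℝ) : ℂ) * G2 y V + (s2 : ℂ) * G2 y V))) (PP m μ) :=
      (integrable_finsetSum _ fun y _ => i6 y).neg
    rw [integral_sub i7 iG3.int, integral_neg, integral_finsetSum _ fun y _ => i6 y]
    have e4 : ∀ y, ∫ V, ((V y : ℂ) * G1 y V - (((V y) ^ 2 : ℝ) : ℂ) * G2 y V +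
        (s2 : ℂ) * G2 y V) ∂(PP m μ) = 0 := by
      intro y
      have i8 : Integrable (fun V : m → ℝ => (V y : ℂ) * G1 y V -
        (((V y) ^ 2 : ℝ) : ℂ) * G2 y V) (PP m μ) := (i3 y).int.sub (i4 y).int
      rw [integral_add i8 (i5 y).int, integral_sub (i3 y).int (i4 y).int,
        z1, z2, integral_const_mul]
      ring
    rw [Finset.sum_eq_zero fun y _ => e4 y]
    ring
  rw [hleft, norm_neg]
  refine (norm_integral_le_of_norm_le_const (C := 4 * β ^ 3 * a * v2 / η ^ 3) ?_).trans ?_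
  · filter_upwards [hV] with V h1
    exact bound H β s2 hβ hs0 hs hη hβa f g hf hg V h1
  · simp

end Pool.Agent.W261.BK
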